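import Pool.Agent.Y519.HB.Last
import Pool.Agent.Y489.SM.Gc

/-!
# Squares of decomposable two-forms of a few factors

A sum of squares of two-forms `x ∧ y`, where `x` and `y` are in one of the subspaces `U i`, is used
in at most `∑ i, dim (U i) / 2` places of the Gauss–Bonnet–Chern integrand.
-/

set_option autoImplicit false

namespace Pool.Agent.V1174.HS

open Pool.Agent.W666.GB Pool.Agent.W669.HD Pool.Agent.Y519.HB Finset

section comp

variable {m : ℕ}

/-- too many covectors in small subspaces -/
theorem gmw_zero {s : ℕ} {b : Fin s → ℕ} {κ : Type} [Fintype κ]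
    {x y : κ → Fin m × Bool → ℝ} (U : Fin s → Submodule ℝ (Fin m × Bool → ℝ))
    (hU : ∀ i, Module.finrank ℝ (U i) ≤ b i) (idx : κ → Fin s)
    (hx : ∀ k, x k ∈ U (idx k)) (hy : ∀ k, y k ∈ U (idx k))
    {S : Finset (Fin m)} (hS : S.card + ∑ i, b i / 2 < m) (c : Fin m → Option κ)
    (C : Fin m → T4 m) :
    gmw (wt S (vc x y c)) S C = 0 := by
  classical
  have hB : ∀ F, Bf S (vc x y c) F = 0 := by
    intro F
    rw [Bf_eq_det]
    by_contra hdet
    obtain ⟨M, hM⟩ : ∃ M, M = Mt S (vc x y c) (fun p j => if F p = j then 1 else 0) := ⟨_, rfl⟩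
    rw [← hM] at hdet
    have hli : LinearIndependent ℝ M.row := Matrix.linearIndependent_rows_of_det_ne_zero hdet
    have hrow : ∀ (p : Fin m) (β : Bool), p ∉ S → M.row (p, β) = vc x y c (p, β) := by
      intro p β hp
      funext j
      simp [hM, Mt, hp, Matrix.row]
    have hsome : ∀ p : {p : Fin m // p ∉ S}, ∃ a, c p = some a := by
      intro p
      cases hc : c p with
      | some a => exact ⟨a, rfl⟩
      | none =>
        exfalso
        have h0 : M.row (p.1, false) = 0 := by
          rw [hrow _ _ p.2]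
          funext j
          simp [vc, hc]
        exact hli.ne_zero (p.1, false) h0
    choose g hg using hsome
    have hex : ∃ i, b i / 2 < ((univ : Finset {p : Fin m // p ∉ S}).filter
        (fun p => idx (g p) = i)).card := by
      by_contra hcon
      push Not at hcon
      have h1 := Finset.card_eq_sum_card_fiberwise (f := fun p : {p : Fin m // p ∉ S} => idx (g p))
        (s := univ) (t := univ) (fun _ _ => Finset.mem_coe.2 (mem_univ _))
      have h2 : ∑ i, ((univ : Finset {p : Fin m // p ∉ S}).filter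
        (fun p => idx (g p) = i)).card ≤ ∑ i, b i / 2 := sum_le_sum fun i _ => hcon i
      have h3 : (univ : Finset {p : Fin m // p ∉ S}).card = m - S.card := by
        rw [card_univ, Fintype.card_subtype_compl, Fintype.card_fin, Fintype.card_coe]
      omega
    obtain ⟨i, hi⟩ := hex
    obtain ⟨Q, hQ⟩ : ∃ Q : Finset {p : Fin m // p ∉ S}, Q = (univ : Finset {p : Fin m // p ∉ S}).filter
        (fun p => idx (g p) = i) := ⟨_, rfl⟩
    rw [← hQ] at hi
    have hmemQ : ∀ p ∈ Q, idx (g p) = i := by
      intro p hp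
      rw [hQ, mem_filter] at hp
      exact hp.2
    have hmem : ∀ q : Q × Bool, M.row (q.1.1.1, q.2) ∈ U i := by
      intro q
      have h1 : idx (g q.1.1) = i := hmemQ _ q.1.2
      rw [hrow _ _ q.1.1.2]
      have h2 : vc x y c (q.1.1.1, q.2) = if q.2 then y (g q.1.1) else x (g q.1.1) := by
        simp only [vc, hg q.1.1, Option.elim_some]
      rw [h2, ← h1]
      split_ifs
      · exact hy _
      · exact hx _
    have hinj : Function.Injective (fun q : Q × Bool => ((q.1.1.1, q.2) : Fin m × Bool)) := by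
      rintro ⟨q, β⟩ ⟨q', β'⟩ h
      simp only [Prod.mk.injEq] at h
      obtain ⟨h1, h2⟩ := h
      refine Prod.ext (Subtype.ext (Subtype.ext h1)) h2
    have h3 : LinearIndependent ℝ (fun q : Q × Bool => (⟨M.row (q.1.1.1, q.2), hmem q⟩ : U i)) := by
      refine LinearIndependent.of_comp (U i).subtype ?_
      exact hli.comp _ hinj
    have h4 := h3.fintype_card_le_finrank
    rw [Fintype.card_prod, Fintype.card_coe, Fintype.card_bool] at h4
    have h5 := hU i
    omega
  rw [gmw_eq_Bf]
  simp [hB]

/-- squares of decomposable forms outside `S` -/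
theorem place_c {κ : Type} [Fintype κ] {x y : κ → Fin m × Bool → ℝ}
    {S : Finset (Fin m)} {C : Fin m → T4 m}
    (h : ∀ c : Fin m → Option κ, 0 ≤ gmw (wt S (vc x y c)) S C) :
    0 ≤ gm (fun b => if b ∈ S then C b else Dq x y) := by
  classical
  have h1 := gm_alt (fun b => if b ∈ S then C b else Dq' x y) (univ \ S)
  have h2 : (fun b => if b ∈ univ \ S then alt4 (if b ∈ S then C b else Dq' x y) else
      (if b ∈ S then C b else Dq' x y)) = fun b => if b ∈ S then C b else Dq x y := by
    funext b
    by_cases hb : b ∈ S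
    · simp [hb]
    · simp [hb, alt4_Dq']
  rw [h2] at h1
  rw [h1, gm_Dq']
  refine mul_nonneg (by positivity) (sum_nonneg fun c _ => mul_nonneg ?_ (h c))
  refine prod_nonneg fun b _ => ?_
  split_ifs <;> norm_num

end comp

section vector

variable {V : Type} [NormedAddCommGroup V] [InnerProductSpace ℝ V] {m : ℕ}

/-- **Monotonicity.** If the tensor `S` has the Hopf sign on the subspaces of dimension `2 k` for
`m - ∑ b i / 2 ≤ k < m`, then subtracting squares `(x ∧ y)²`, with `x` and `y` in one of the subspaces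
`U i` of dimension at most `b i`, does not decrease `(-1)^m` times the integrand. -/
theorem partial_super (e : OrthonormalBasis (Fin m × Bool) ℝ V) {s : ℕ} {b : Fin s → ℕ}
    (U : Fin s → Submodule ℝ V) (hU : ∀ i, Module.finrank ℝ (U i) ≤ b i) {n : ℕ}
    {x y : Fin n → V} (idx : Fin n → Fin s) (hx : ∀ k, x k ∈ U (idx k)) (hy : ∀ k, y k ∈ U (idx k))
    {S T : V → V → V → V → ℝ} (hS : AlgCurv S)
    (hH : ∀ k, m ≤ k + ∑ i, b i / 2 → k < m → ∀ (E : Submodule ℝ V)
      (e : OrthonormalBasis (Fin k × Bool) ℝ E),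
      0 ≤ (-1) ^ k * gbc e (fun x y z w : E => S x y z w))
    (hT : ∀ a b c d, T a b c d = - (∑ k, sqDec (x k) (y k) a b c d)) :
    (-1) ^ m * gbc e S ≤ (-1) ^ m * gbc e (addT S T) := by
  classical
  have hfin : FiniteDimensional ℝ V := Module.Finite.of_basis e.toBasis
  obtain ⟨φ, hφ⟩ : ∃ φ : V →ₗ[ℝ] (Fin m × Bool → ℝ), ∀ v j, φ v j = inner ℝ v (e j) := by
    refine ⟨LinearMap.pi fun j => (innerₛₗ ℝ (e j)), fun v j => ?_⟩
    simp [real_inner_comm]
  obtain ⟨X, hX⟩ : ∃ X : Fin n → Fin m × Bool → ℝ, X = fun k => φ (x k) := ⟨_, rfl⟩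
  obtain ⟨Y, hY⟩ : ∃ Y : Fin n → Fin m × Bool → ℝ, Y = fun k => φ (y k) := ⟨_, rfl⟩
  have hDT : cp e (negT T) = Dq X Y := by
    funext i j k l
    simp only [cp, negT, hT, Dq, hX, hY, hφ, sqDec]
    ring
  have hD : ∀ _ : Fin m, cp e (negT (addT S T)) = fun i j k l => cp e (negT S) i j k l +
      Dq X Y i j k l := by
    intro a
    funext i j k l
    have h1 := congrFun (congrFun (congrFun (congrFun hDT i) j) k) l
    rw [← h1]
    simp only [cp, negT, addT]
    ring
  have hpos : ∀ S' ∈ (univ : Finset (Fin m)).powerset, S' ≠ univ →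
      0 ≤ mix (cp e (negT S)) (Dq X Y) S' := by
    intro S' _ hne
    refine place_c (C := fun _ => cp e (negT S)) fun c => ?_
    rcases Nat.lt_or_ge (S'.card + ∑ i, b i / 2) m with hlt | hge
    · rw [gmw_zero (fun i => (U i).map φ) (fun i => (Submodule.finrank_map_le φ (U i)).trans (hU i))
        idx (fun k => ?_) (fun k => ?_) hlt]
      · rw [hX]; exact Submodule.mem_map_of_mem (hx k)
      · rw [hY]; exact Submodule.mem_map_of_mem (hy k)
    · obtain ⟨c', z, -, hgen⟩ := gen (fun _ : Fin m × Bool => ()) S' (vc X Y c)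
        (fun q => ⟨(), fun _ h => absurd rfl h⟩)
      rw [hgen (fun _ => cp e (negT S))]
      refine mul_nonneg (sq_nonneg _) ?_
      refine EE_of_hopf e hS (U := ⊤) ?_ ?_ z
      · intro a ha y z w
        rw [Submodule.top_orthogonal_eq_bot, Submodule.mem_bot] at ha
        rw [ha]
        have := hS.smul 0 0 y z w
        simpa using this
      · intro E _ ε
        have h1 : S' ⊂ univ := Finset.ssubset_univ_iff.2 hne
        have h2 := Finset.card_lt_card h1
        rw [card_univ, Fintype.card_fin] at h2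
        refine hH _ ?_ ?_ E ε
        · rw [Fintype.card_coe]; exact hge
        · rw [Fintype.card_coe]; exact h2
  have hu : (univ : Finset (Fin m)) ∈ (univ : Finset (Fin m)).powerset :=
    Finset.mem_powerset.2 (Finset.Subset.refl _)
  have hgm : gm (fun _ : Fin m => cp e (negT S)) ≤
      gm (fun _ : Fin m => cp e (negT (addT S T))) := by
    rw [show (fun _ : Fin m => cp e (negT (addT S T))) = _ from funext hD,
      gm_add (m := m) (cp e (negT S)) (Dq X Y), ← Finset.add_sum_erase _ _ hu]
    have hfull : mix (cp e (negT S)) (Dq X Y) univ = gm (fun _ : Fin m => cp e (negT S)) := by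
      unfold mix
      simp only [Finset.mem_univ, if_true]
    rw [hfull]
    have h1 : 0 ≤ ∑ S' ∈ ((univ : Finset (Fin m)).powerset).erase univ,
        mix (cp e (negT S)) (Dq X Y) S' :=
      sum_nonneg fun S' hS' => hpos S' (mem_of_mem_erase hS') (ne_of_mem_erase hS')
    linarith
  have hπ := Real.pi_pos
  have hc : 0 < 1 / ((8 * Real.pi) ^ m * (m.factorial : ℝ)) := by positivity
  rw [gbc_eq, gbc_eq]
  exact mul_le_mul_of_nonneg_left hgm hc.le

end vector

end Pool.Agent.V1174.HS
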