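import Pool.Agent.V1174.HS.A

/-!
# Second fundamental forms and ambient squares
-/

set_option autoImplicit false

namespace Pool.Agent.V1174.HS

open Pool.Agent.W666.GB Pool.Agent.W669.HD Pool.Agent.Y519.HB Pool.Agent.Y489.SM Finset

variable {V W A : Type} [NormedAddCommGroup V] [InnerProductSpace ℝ V]
  [NormedAddCommGroup W] [InnerProductSpace ℝ W]
  [NormedAddCommGroup A] [InnerProductSpace ℝ A] {m : ℕ}

/-- the restriction of a second fundamental form -/
noncomputable def restr (β : V →ₗ[ℝ] V →ₗ[ℝ] W) (E : Submodule ℝ V) : E →ₗ[ℝ] E →ₗ[ℝ] W :=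
  β.compl₁₂ E.subtype E.subtype

theorem restr_apply (β : V →ₗ[ℝ] V →ₗ[ℝ] W) (E : Submodule ℝ V) (x y : E) :
    restr β E x y = β x y := rfl

theorem gauss_restr (β : V →ₗ[ℝ] V →ₗ[ℝ] W) (E : Submodule ℝ V) :
    shift 0 (gauss (restr β E)) = fun x y z w : E => gauss β x y z w := by
  funext x y z w
  simp [shift, gauss, restr_apply]

/-- nonpositive extrinsic curvature: the sign on subspaces -/
theorem ext_sign [FiniteDimensional ℝ W] (β : V →ₗ[ℝ] V →ₗ[ℝ] W) (hs : ∀ x y, β x y = β y x)
    {k : ℕ} (hk : k ≤ 2 ∨ Module.finrank ℝ W ≤ k) (hK : ∀ x y, gauss β x y x y ≤ 0)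
    (E : Submodule ℝ V) (ε : OrthonormalBasis (Fin k × Bool) ℝ E) :
    0 ≤ (-1) ^ k * gbc ε (fun x y z w : E => gauss β x y z w) := by
  have h := criterion ε (restr β E) (fun x y => by rw [restr_apply, restr_apply, hs]) (c := 0) le_rfl
    (fun j _ _ hj => by
      obtain rfl := hj rfl
      exact Or.inr ⟨hk, fun x y => hK x y⟩)
  rw [gauss_restr] at h
  exact (roundGB_nonneg le_rfl).trans h

/-- no definite shape operators on large subspaces: the sign on subspaces -/
theorem saddle_sign [FiniteDimensional ℝ W] (β : V →ₗ[ℝ] V →ₗ[ℝ] W) (hs : ∀ x y, β x y = β y x)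
    {k : ℕ} (hp : ∀ (ξ : W) (U : Submodule ℝ V), (∀ x ∈ U, x ≠ 0 → 0 < inner ℝ ξ (β x x)) →
      Module.finrank ℝ U ≤ k)
    (E : Submodule ℝ V) (ε : OrthonormalBasis (Fin k × Bool) ℝ E) :
    0 ≤ (-1) ^ k * gbc ε (fun x y z w : E => gauss β x y z w) := by
  have h := criterion ε (restr β E) (fun x y => by rw [restr_apply, restr_apply, hs]) (c := 0) le_rfl
    (fun j _ _ hj => by
      obtain rfl := hj rfl
      refine Or.inl fun ξ => ?_
      refine saddle_coeff ε (restr β E) (fun x y => by rw [restr_apply, restr_apply, hs]) ?_ ξ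
      intro ζ U hU
      have h1 := hp ζ (U.map E.subtype) (by
        rintro _ ⟨x, hx, rfl⟩ hx0
        exact hU x hx (fun h => hx0 (by rw [h, map_zero])))
      rwa [Submodule.finrank_map_subtype_eq] at h1)
  rw [gauss_restr] at h
  exact (roundGB_nonneg le_rfl).trans h

/-- squares of the ambient space, restricted to the tangent space -/
theorem sq_adjoint [FiniteDimensional ℝ V] [FiniteDimensional ℝ A] (ι : V →ₗᵢ[ℝ] A) (ξ η : A)
    (a b c d : V) :
    sqDec ξ η (ι a) (ι b) (ι c) (ι d) =
      sqDec (LinearMap.adjoint ι.toLinearMap ξ) (LinearMap.adjoint ι.toLinearMap η) a b c d := by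
  have h : ∀ (ζ : A) (v : V), inner ℝ ζ (ι v) =
      inner ℝ (LinearMap.adjoint ι.toLinearMap ζ) v := fun ζ v => by
    rw [LinearMap.adjoint_inner_left]
    rfl
  simp only [sqDec, h]

/-- the general bound for submanifolds -/
theorem sub_bound [FiniteDimensional ℝ A] (e : OrthonormalBasis (Fin m × Bool) ℝ V)
    (β : V →ₗ[ℝ] V →ₗ[ℝ] W) (hs : ∀ x y, β x y = β y x) {s : ℕ} {b : Fin s → ℕ}
    (F : Fin s → Submodule ℝ A) (hF : ∀ i, Module.finrank ℝ (F i) ≤ b i) {n : ℕ}
    {ξ η : Fin n → A} (idx : Fin n → Fin s) (hξ : ∀ k, ξ k ∈ F (idx k)) (hη : ∀ k, η k ∈ F (idx k))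
    (ι : V →ₗᵢ[ℝ] A) {R : V → V → V → V → ℝ}
    (hR : ∀ a b c d, R a b c d = gauss β a b c d -
      ∑ k, sqDec (ξ k) (η k) (ι a) (ι b) (ι c) (ι d))
    (hH : ∀ k, m ≤ k + ∑ i, b i / 2 → k < m → ∀ (E : Submodule ℝ V)
      (e : OrthonormalBasis (Fin k × Bool) ℝ E),
      0 ≤ (-1) ^ k * gbc e (fun x y z w : E => gauss β x y z w)) :
    (-1) ^ m * gbc e (gauss β) ≤ (-1) ^ m * gbc e R := by
  have hfin : FiniteDimensional ℝ V := Module.Finite.of_basis e.toBasis
  have h := partial_super e (fun i => (F i).map (LinearMap.adjoint ι.toLinearMap))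
    (fun i => (Submodule.finrank_map_le _ (F i)).trans (hF i))
    (x := fun k => LinearMap.adjoint ι.toLinearMap (ξ k))
    (y := fun k => LinearMap.adjoint ι.toLinearMap (η k)) idx
    (fun k => Submodule.mem_map_of_mem (hξ k)) (fun k => Submodule.mem_map_of_mem (hη k))
    (S := gauss β) (T := fun a b c d => - ∑ k, sqDec (LinearMap.adjoint ι.toLinearMap (ξ k))
      (LinearMap.adjoint ι.toLinearMap (η k)) a b c d) (gauss_curv hs) hH (fun _ _ _ _ => rfl)
  have hRR : addT (gauss β) (fun a b c d => - ∑ k, sqDec (LinearMap.adjoint ι.toLinearMap (ξ k))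
      (LinearMap.adjoint ι.toLinearMap (η k)) a b c d) = R := by
    funext a b c d
    rw [hR]
    simp only [addT, sq_adjoint]
    ring
  rwa [hRR] at h

/-- products of space forms: the tensor is minus a sum of squares -/
theorem forms_squares [FiniteDimensional ℝ A] {s : ℕ} (F : Fin s → Submodule ℝ A) (c : Fin s → ℝ)
    (hc : ∀ i, 0 ≤ c i) :
    ∃ (n : ℕ) (ξ η : Fin n → A) (idx : Fin n → Fin s),
      (∀ k, ξ k ∈ F (idx k)) ∧ (∀ k, η k ∈ F (idx k)) ∧
      ∀ x y z w : A, ∑ i, c i * unitT ((F i).starProjection x) ((F i).starProjection y)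
        ((F i).starProjection z) ((F i).starProjection w) = ∑ k, sqDec (ξ k) (η k) x y z w := by
  classical
  let J : Type := Σ i : Fin s, Fin (Module.finrank ℝ (F i)) × Fin (Module.finrank ℝ (F i))
  let f : ∀ i : Fin s, OrthonormalBasis (Fin (Module.finrank ℝ (F i))) ℝ (F i) :=
    fun i => stdOrthonormalBasis ℝ (F i)
  let g : Fin (Fintype.card J) ≃ J := (Fintype.equivFin J).symm
  refine ⟨Fintype.card J, fun k => Real.sqrt (c (g k).1 / 2) • (f (g k).1 (g k).2.1 : A),
    fun k => (f (g k).1 (g k).2.2 : A), fun k => (g k).1, fun k => ?_, fun k => ?_, ?_⟩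
  · exact (F _).smul_mem _ (Subtype.coe_prop _)
  · exact Subtype.coe_prop _
  · intro x y z w
    rw [Equiv.sum_comp g (fun j : J => sqDec (Real.sqrt (c j.1 / 2) • (f j.1 j.2.1 : A))
      (f j.1 j.2.2 : A) x y z w), Fintype.sum_sigma]
    refine sum_congr rfl fun i _ => ?_
    have hp : ∀ (t : Fin (Module.finrank ℝ (F i))) (v : A), inner ℝ (f i t : A) v =
        inner ℝ (f i t) ((F i).orthogonalProjectionOnto v) := by
      intro t v
      exact (Submodule.inner_orthogonalProjectionOnto_eq_of_mem_left (f i t) v).symm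
    have hsum : ∀ u v : A, ∑ t, inner ℝ (f i t : A) u * inner ℝ (f i t : A) v =
        inner ℝ ((F i).starProjection u) ((F i).starProjection v) := by
      intro u v
      have h1 := (f i).sum_inner_mul_inner ((F i).orthogonalProjectionOnto u)
        ((F i).orthogonalProjectionOnto v)
      rw [Submodule.starProjection_apply, Submodule.starProjection_apply, ← Submodule.coe_inner,
        ← h1]
      refine sum_congr rfl fun t _ => ?_
      rw [hp, hp, real_inner_comm (f i t) ((F i).orthogonalProjectionOnto u)]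
    have hsq : Real.sqrt (c i / 2) * Real.sqrt (c i / 2) = c i / 2 :=
      Real.mul_self_sqrt (by have := hc i; positivity)
    rw [Fintype.sum_prod_type]
    have hexp : ∀ p q : Fin (Module.finrank ℝ (F i)),
        sqDec (Real.sqrt (c i / 2) • (f i p : A)) (f i q : A) x y z w =
        c i / 2 * ((inner ℝ (f i p : A) x * inner ℝ (f i p : A) z) *
          (inner ℝ (f i q : A) y * inner ℝ (f i q : A) w) -
          (inner ℝ (f i p : A) x * inner ℝ (f i p : A) w) *
          (inner ℝ (f i q : A) y * inner ℝ (f i q : A) z) -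
          (inner ℝ (f i p : A) y * inner ℝ (f i p : A) z) *
          (inner ℝ (f i q : A) x * inner ℝ (f i q : A) w) +
          (inner ℝ (f i p : A) y * inner ℝ (f i p : A) w) *
          (inner ℝ (f i q : A) x * inner ℝ (f i q : A) z)) := by
      intro p q
      conv_rhs => rw [← hsq]
      generalize Real.sqrt (c i / 2) = r
      simp only [sqDec, inner_smul_left, conj_trivial]
      ring
    simp only [hexp, ← mul_sum, sum_add_distrib, sum_sub_distrib, ← sum_mul, hsum]
    simp only [unitT]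
    ring

end Pool.Agent.V1174.HS
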