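import Pool.Agent.V1174.HS.B

/-!
# Curvature tensors of nonpositive sectional curvature in dimension at most three
-/

set_option autoImplicit false

namespace Pool.Agent.V1174.HS

open Pool.Agent.W666.GB Pool.Agent.W669.HD Pool.Agent.Y519.HB Finset

/-- the vector product -/
def cr (x y : Fin 3 → ℝ) : Fin 3 → ℝ :=
  ![x 1 * y 2 - x 2 * y 1, x 2 * y 0 - x 0 * y 2, x 0 * y 1 - x 1 * y 0]

theorem exists_cr (n : Fin 3 → ℝ) : ∃ p q, cr p q = n := by
  by_cases h : n 0 = 0 ∧ n 1 = 0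
  · refine ⟨![1, 0, 0], ![0, n 2, 0], ?_⟩
    funext i
    fin_cases i
    · simp [cr, h.1]
    · simp [cr, h.2]
    · simp [cr]
  · have hD : n 0 ^ 2 + n 1 ^ 2 ≠ 0 := by
      intro h0
      apply h
      constructor <;> nlinarith [sq_nonneg (n 0), sq_nonneg (n 1)]
    refine ⟨![- n 1, n 0, 0], ![- n 2 * n 0 / (n 0 ^ 2 + n 1 ^ 2),
      - n 1 * n 2 / (n 0 ^ 2 + n 1 ^ 2), 1], ?_⟩
    funext i
    fin_cases i
    · simp [cr]
    · simp [cr]
    · simp [cr]
      field_simp
      ring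

variable {A : Type} [NormedAddCommGroup A] [InnerProductSpace ℝ A]

/-- a frame with three vectors of a subspace of dimension at most three -/
theorem exists_frame [FiniteDimensional ℝ A] (F : Submodule ℝ A) (hF : Module.finrank ℝ F ≤ 3) :
    ∃ f : Fin 3 → A, (∀ i, f i ∈ F) ∧
      ∀ x, F.starProjection x = ∑ i, (inner ℝ (f i) x : ℝ) • f i := by
  classical
  let g := stdOrthonormalBasis ℝ F
  refine ⟨fun i => if h : i.val < Module.finrank ℝ F then (g ⟨i.val, h⟩ : A) else 0, ?_, ?_⟩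
  · intro i
    dsimp only
    split_ifs
    · exact Subtype.coe_prop _
    · exact F.zero_mem
  · intro x
    have h2 : F.starProjection x = ∑ j, (inner ℝ (g j : A) x : ℝ) • (g j : A) := by
      have h4 := g.sum_repr (F.orthogonalProjectionOnto x)
      have h5 := congrArg (fun v : F => (v : A)) h4
      simp only [Submodule.coe_sum, Submodule.coe_smul] at h5
      have h6 : (F.orthogonalProjectionOnto x : A) = F.starProjection x := rfl
      rw [← h6, ← h5]
      refine sum_congr rfl fun i _ => ?_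
      rw [g.repr_apply_apply]
      congr 1
      rw [real_inner_comm, inner_proj, real_inner_comm]
    rw [h2]
    refine Fintype.sum_of_injective (Fin.castLE hF) (Fin.castLE_injective hF) _ _ ?_ ?_
    · intro i hi
      have h3 : ¬ i.val < Module.finrank ℝ F := by
        intro h
        exact hi ⟨⟨i.val, h⟩, by ext; rfl⟩
      simp [h3]
    · intro j
      have h3 : (Fin.castLE hF j).val < Module.finrank ℝ F := j.2
      simp only [dif_pos h3]
      rfl

/-- alternating forms on three vectors -/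
theorem alt3 {K : A → A → A → A → ℝ} (hK : AlgCurv K) (f : Fin 3 → A) (x y : Fin 3 → ℝ) (z w : A) :
    K (∑ i, x i • f i) (∑ i, y i • f i) z w =
      cr x y 0 * K (f 1) (f 2) z w + cr x y 1 * K (f 2) (f 0) z w +
        cr x y 2 * K (f 0) (f 1) z w := by
  have hz : ∀ a, K a a z w = 0 := fun a => by
    have := hK.anti a a z w
    linarith
  have e2 : ∀ (u : A) (c : Fin 3 → ℝ), K u (∑ i, c i • f i) z w =
      c 0 * K u (f 0) z w + c 1 * K u (f 1) z w + c 2 * K u (f 2) z w := by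
    intro u c
    rw [hK.anti, Fin.sum_univ_three, hK.add, hK.add, hK.smul, hK.smul, hK.smul, hK.anti u (f 0),
      hK.anti u (f 1), hK.anti u (f 2)]
    ring
  rw [Fin.sum_univ_three (fun i => x i • f i), hK.add, hK.add, hK.smul, hK.smul, hK.smul, e2, e2, e2,
    hz, hz, hz, hK.anti (f 0) (f 2), hK.anti (f 1) (f 0), hK.anti (f 2) (f 1)]
  simp only [cr, Matrix.cons_val_zero, Matrix.cons_val_one, Matrix.cons_val]
  ring

theorem alt3' {K : A → A → A → A → ℝ} (hK : AlgCurv K) (f : Fin 3 → A) (x y : A)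
    (z w : Fin 3 → ℝ) :
    K x y (∑ i, z i • f i) (∑ i, w i • f i) =
      cr z w 0 * K x y (f 1) (f 2) + cr z w 1 * K x y (f 2) (f 0) +
        cr z w 2 * K x y (f 0) (f 1) := by
  rw [← hK.pair, alt3 hK, hK.pair x y (f 1) (f 2), hK.pair x y (f 2) (f 0),
    hK.pair x y (f 0) (f 1)]

/-- **Dimension at most three**: nonpositive sectional curvature means minus a sum of squares. -/
theorem three_squares [FiniteDimensional ℝ A] {K : A → A → A → A → ℝ} (hK : AlgCurv K)
    (F : Submodule ℝ A) (hF : Module.finrank ℝ F ≤ 3) (hL : LivesOn F K)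
    (hsec : ∀ x y, K x y x y ≤ 0) :
    ∃ (n : ℕ) (ξ η : Fin n → A), (∀ k, ξ k ∈ F) ∧ (∀ k, η k ∈ F) ∧
      ∀ x y z w, K x y z w = - ∑ k, sqDec (ξ k) (η k) x y z w := by
  obtain ⟨f, hf, hP⟩ := exists_frame F hF
  obtain ⟨s, hs⟩ : ∃ s : Fin 3 → A, s = ![f 1, f 2, f 0] := ⟨_, rfl⟩
  obtain ⟨t, ht⟩ : ∃ t : Fin 3 → A, t = ![f 2, f 0, f 1] := ⟨_, rfl⟩
  obtain ⟨Q, hQ⟩ : ∃ Q : Fin 3 → Fin 3 → ℝ, Q = fun α β => - K (s α) (t α) (s β) (t β) := ⟨_, rfl⟩
  have hexp : ∀ x y z w : Fin 3 → ℝ, K (∑ i, x i • f i) (∑ i, y i • f i) (∑ i, z i • f i)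
      (∑ i, w i • f i) = - ∑ α, ∑ β, cr x y α * cr z w β * Q α β := by
    intro x y z w
    rw [alt3 hK, alt3' hK, alt3' hK, alt3' hK, hQ, hs, ht]
    simp only [Fin.sum_univ_three, Matrix.cons_val_zero, Matrix.cons_val_one, Matrix.cons_val]
    ring
  have hsymQ : ∀ α β, Q α β = Q β α := by
    intro α β
    rw [hQ]
    simp only
    rw [hK.pair]
  obtain ⟨B, hB⟩ := sq_real (J := Fin 3) Q hsymQ (by
    intro v
    obtain ⟨p, q, hpq⟩ := exists_cr v
    have h1 := hexp p q p q
    have h2 := hsec (∑ i, p i • f i) (∑ i, q i • f i)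
    rw [h1, hpq] at h2
    have h3 : ∑ p, ∑ q, Q p q * (v p * v q) = ∑ α, ∑ β, v α * v β * Q α β :=
      sum_congr rfl fun α _ => sum_congr rfl fun β _ => by ring
    rw [h3]
    linarith)
  choose p q hpq using fun a => exists_cr (B a)
  refine ⟨3, fun k => ∑ i, p k i • f i, fun k => ∑ i, q k i • f i,
    fun k => F.sum_mem fun i _ => F.smul_mem _ (hf i),
    fun k => F.sum_mem fun i _ => F.smul_mem _ (hf i), ?_⟩
  intro x y z w
  have hsub : ∀ v : A, v - F.starProjection v ∈ Fᗮ := fun v =>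
    F.sub_starProjection_mem_orthogonal v
  rw [lives_eq hK hL (hsub x) (hsub y) (hsub z) (hsub w), hP, hP, hP, hP, hexp]
  congr 1
  have hin : ∀ (c : Fin 3 → ℝ) (v : A), inner ℝ (∑ i, c i • f i) v =
      ∑ i, c i * inner ℝ (f i) v := by
    intro c v
    rw [sum_inner]
    refine sum_congr rfl fun i _ => ?_
    rw [real_inner_smul_left]
  have hbc : ∀ (c d u v : Fin 3 → ℝ), (∑ i, c i * u i) * (∑ i, d i * v i) -
      (∑ i, c i * v i) * (∑ i, d i * u i) = ∑ α, cr c d α * cr u v α := by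
    intro c d u v
    simp only [Fin.sum_univ_three, cr, Matrix.cons_val_zero, Matrix.cons_val_one, Matrix.cons_val]
    ring
  have hsq : ∀ a, sqDec (∑ i, p a i • f i) (∑ i, q a i • f i) x y z w =
      (∑ α, B a α * cr (fun i => inner ℝ (f i) x) (fun i => inner ℝ (f i) y) α) *
      (∑ β, B a β * cr (fun i => inner ℝ (f i) z) (fun i => inner ℝ (f i) w) β) := by
    intro a
    simp only [sqDec, hin]
    rw [hbc (p a) (q a) (fun i => inner ℝ (f i) x) (fun i => inner ℝ (f i) y),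
      hbc (p a) (q a) (fun i => inner ℝ (f i) z) (fun i => inner ℝ (f i) w), hpq]
  simp only [hsq, hB]
  generalize cr (fun i => inner ℝ (f i) x) (fun i => inner ℝ (f i) y) = X
  generalize cr (fun i => inner ℝ (f i) z) (fun i => inner ℝ (f i) w) = Z
  simp only [Fin.sum_univ_three]
  ring

end Pool.Agent.V1174.HS
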