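import Pool.Agent.V1174.HS.C

/-!
# Products of space forms and of spaces of dimension at most three
-/

set_option autoImplicit false

namespace Pool.Agent.V1174.HS

open Pool.Agent.W666.GB Pool.Agent.W669.HD Pool.Agent.Y519.HB Finset

variable {A : Type} [NormedAddCommGroup A] [InnerProductSpace ℝ A]

/-- minus a sum of squares of two-forms of `F` -/
def NegSq (F : Submodule ℝ A) (K : A → A → A → A → ℝ) : Prop :=
  ∃ (n : ℕ) (ξ η : Fin n → A), (∀ k, ξ k ∈ F) ∧ (∀ k, η k ∈ F) ∧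
    ∀ x y z w, K x y z w = - ∑ k, sqDec (ξ k) (η k) x y z w

theorem merge {s : ℕ} (F : Fin s → Submodule ℝ A) (K : Fin s → A → A → A → A → ℝ)
    (h : ∀ i, NegSq (F i) (K i)) :
    ∃ (n : ℕ) (ξ η : Fin n → A) (idx : Fin n → Fin s),
      (∀ k, ξ k ∈ F (idx k)) ∧ (∀ k, η k ∈ F (idx k)) ∧
      ∀ x y z w : A, ∑ i, K i x y z w = - ∑ k, sqDec (ξ k) (η k) x y z w := by
  classical
  choose n ξ η hξ hη hK using h
  let g : Fin (Fintype.card (Σ i : Fin s, Fin (n i))) ≃ (Σ i : Fin s, Fin (n i)) :=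
    (Fintype.equivFin _).symm
  refine ⟨_, fun k => ξ (g k).1 (g k).2, fun k => η (g k).1 (g k).2, fun k => (g k).1,
    fun k => hξ _ _, fun k => hη _ _, fun x y z w => ?_⟩
  rw [Equiv.sum_comp g (fun j : (Σ i : Fin s, Fin (n i)) => sqDec (ξ j.1 j.2) (η j.1 j.2) x y z w),
    Fintype.sum_sigma, ← sum_neg_distrib]
  exact sum_congr rfl fun i _ => hK i x y z w

/-- a space form of curvature `-c ≤ 0` -/
theorem form_negSq [FiniteDimensional ℝ A] {F : Submodule ℝ A} {K : A → A → A → A → ℝ}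
    (hK : AlgCurv K) (hL : LivesOn F K) {c : ℝ} (hc : 0 ≤ c)
    (h : ∀ x ∈ F, ∀ y ∈ F, ∀ z ∈ F, ∀ w ∈ F, K x y z w = - (c * unitT x y z w)) : NegSq F K := by
  obtain ⟨n, ξ, η, idx, hξ, hη, hsq⟩ := forms_squares (fun _ : Fin 1 => F) (fun _ => c) (fun _ => hc)
  refine ⟨n, ξ, η, hξ, hη, fun x y z w => ?_⟩
  have hsub : ∀ v : A, v - F.starProjection v ∈ Fᗮ := fun v =>
    F.sub_starProjection_mem_orthogonal v
  rw [lives_eq hK hL (hsub x) (hsub y) (hsub z) (hsub w),
    h _ (F.starProjection_apply_mem x) _ (F.starProjection_apply_mem y) _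
      (F.starProjection_apply_mem z) _ (F.starProjection_apply_mem w), ← hsq x y z w]
  simp

/-- a factor of dimension at most three -/
theorem three_negSq [FiniteDimensional ℝ A] {F : Submodule ℝ A} {K : A → A → A → A → ℝ}
    (hK : AlgCurv K) (hL : LivesOn F K) (hF : Module.finrank ℝ F ≤ 3) (hs : ∀ x y, K x y x y ≤ 0) :
    NegSq F K :=
  three_squares hK F hF hL hs

end Pool.Agent.V1174.HS
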